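import Pool.Agent.U26.SP.Periodic

/-! Lower bounds for the densities of periodic packings (helper26). -/

set_option autoImplicit false

open MeasureTheory Metric Filter Set Pool.Agent.H818R2
open scoped Topology

namespace Pool.Agent.U26.SP

/-- `X` is invariant under the translations by the vectors `L i • e_i`. -/
def Invariant {n : ℕ} (L : Fin n → ℝ) (X : Set (EuclideanSpace ℝ (Fin n))) : Prop :=
  ∀ (i : Fin n) (x : EuclideanSpace ℝ (Fin n)), x ∈ X ↔ x + EuclideanSpace.single i (L i) ∈ X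

/-- the largest density of the packings of unit balls that are invariant under the translations by
the vectors `L i • e_i` -/
noncomputable def boxDensity (n : ℕ) (L : Fin n → ℝ) : ℝ :=
  sSup {δ | ∃ X : Set (EuclideanSpace ℝ (Fin n)), IsPacking X 1 ∧ Invariant L X ∧
    upperDensity X 1 = δ}

theorem bdd_box (n : ℕ) (L : Fin n → ℝ) : BddAbove {δ | ∃ X : Set (EuclideanSpace ℝ (Fin n)),
    IsPacking X 1 ∧ Invariant L X ∧ upperDensity X 1 = δ} := by
  refine ⟨1, ?_⟩
  rintro δ ⟨X, -, -, rfl⟩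
  exact upperDensity_le_one X 1

theorem boxDensity_le (n : ℕ) (L : Fin n → ℝ) : boxDensity n L ≤ rho n := by
  apply csSup_le
  · exact ⟨_, ∅, isPacking_empty, fun i x => by simp, rfl⟩
  · rintro δ ⟨X, h1, -, rfl⟩
    exact le_optDensity h1

theorem le_boxDensity {n : ℕ} {L : Fin n → ℝ} {X : Set (EuclideanSpace ℝ (Fin n))}
    (h1 : IsPacking X 1) (h2 : Invariant L X) : upperDensity X 1 ≤ boxDensity n L :=
  le_csSup (bdd_box n L) ⟨X, h1, h2, rfl⟩

theorem per_invariant (n : ℕ) (L : Fin n → ℝ) (Y : Finset (EuclideanSpace ℝ (Fin n))) :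
    Invariant L (per n L Y) := by
  intro i x
  constructor
  · rintro ⟨y, hy, k, rfl⟩
    refine ⟨y, hy, fun j => k j + if j = i then 1 else 0, ?_⟩
    ext j
    simp only [PiLp.add_apply, shift_apply, PiLp.single_apply]
    by_cases h : j = i
    · subst h; simp; ring
    · simp [h]
  · rintro ⟨y, hy, k, hk⟩
    refine ⟨y, hy, fun j => k j - if j = i then 1 else 0, ?_⟩
    ext j
    have := congrArg (fun z : EuclideanSpace ℝ (Fin n) => z j) hk
    simp only [PiLp.add_apply, shift_apply, PiLp.single_apply] at this ⊢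
    by_cases h : j = i
    · subst h; simp at this ⊢; linarith
    · simp [h] at this ⊢; linarith

/-- **The finite inequality for boxes.** -/
theorem box_ineq (n : ℕ) (L : Fin n → ℝ) (hL : ∀ i, 2 ≤ L i) (τ : ℝ) (hτ : 0 < τ)
    (hτ2 : τ < 1 / 2) (d : ℕ) (hd : 1 ≤ (d + 1) * τ ^ 2) :
    rho n * (1 - 2 * τ) ^ n ≤ (n + 1) ^ d * boxDensity n L := by
  have hL0 : ∀ i, 0 < L i := fun i => by linarith [hL i]
  obtain ⟨Y, hb, hY, hc⟩ := exists_torus n L hL0 τ hτ (fun i => by linarith [hL i]) d hd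
  have hprod : 0 < ∏ i, L i := Finset.prod_pos fun i _ => hL0 i
  have h1 := density_per hL hb hY
  have h2 := h1.trans (le_boxDensity (per_packing hL hY) (per_invariant n L Y))
  have h3 : (1 - 2 * τ) ^ n * ∏ i, L i ≤ ∏ i, (L i - 4 * τ) := by
    have : (1 - 2 * τ) ^ n * ∏ i, L i = ∏ i : Fin n, (1 - 2 * τ) * L i := by
      rw [Finset.prod_mul_distrib, Finset.prod_const, Finset.card_univ, Fintype.card_fin]
    rw [this]
    apply Finset.prod_le_prod
    · intro i _
      exact mul_nonneg (by linarith) (hL0 i).le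
    · intro i _
      nlinarith [hL i]
  have h4 : rho n * ((1 - 2 * τ) ^ n * ∏ i, L i) ≤
      (n + 1) ^ d * Y.card * vb (EuclideanSpace ℝ (Fin n)) :=
    (mul_le_mul_of_nonneg_left h3 (rho_nonneg n)).trans hc
  rw [div_le_iff₀ hprod] at h2
  have h5 : rho n * (1 - 2 * τ) ^ n * ∏ i, L i ≤ (n + 1) ^ d * boxDensity n L * ∏ i, L i := by
    calc rho n * (1 - 2 * τ) ^ n * ∏ i, L i
        = rho n * ((1 - 2 * τ) ^ n * ∏ i, L i) := by ring
      _ ≤ (n + 1) ^ d * (Y.card * vb (EuclideanSpace ℝ (Fin n))) := le_of_le_of_eq h4 (by ring)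
      _ ≤ (n + 1) ^ d * (boxDensity n L * ∏ i, L i) :=
          mul_le_mul_of_nonneg_left h2 (by positivity)
      _ = _ := by ring
  exact le_of_mul_le_mul_right h5 hprod

/-! ### the choice of `τ` -/

/-- `n ^ (2/3) (log (n + 1)) ^ (1/3)` -/
noncomputable def err (n : ℕ) : ℝ := (n : ℝ) ^ (2 / 3 : ℝ) * Real.log (n + 1) ^ (1 / 3 : ℝ)

/-- `(log (n + 1) / n) ^ (1/3)` -/
noncomputable def tt (n : ℕ) : ℝ := (Real.log (n + 1) / n) ^ (1 / 3 : ℝ)

theorem log_pos' {n : ℕ} (hn : 0 < n) : 0 < Real.log (n + 1) := by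
  apply Real.log_pos
  have : (1 : ℝ) ≤ n := by exact_mod_cast hn
  linarith

theorem tt_pos {n : ℕ} (hn : 0 < n) : 0 < tt n := by
  have := log_pos' hn
  have : (0 : ℝ) < n := by exact_mod_cast hn
  unfold tt
  positivity

theorem tt_cube {n : ℕ} (hn : 0 < n) : tt n ^ 3 = Real.log (n + 1) / n := by
  have h1 := log_pos' hn
  have h2 : (0 : ℝ) < n := by exact_mod_cast hn
  unfold tt
  rw [← Real.rpow_natCast, ← Real.rpow_mul (by positivity)]
  norm_num

theorem tt_le_one {n : ℕ} (hn : 0 < n) : tt n ≤ 1 := by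
  have h2 : (0 : ℝ) < n := by exact_mod_cast hn
  have h1 : Real.log (n + 1) ≤ n := by
    have := Real.log_le_sub_one_of_pos (show (0 : ℝ) < n + 1 by linarith)
    linarith
  unfold tt
  apply Real.rpow_le_one (div_nonneg (log_pos' hn).le h2.le)
  · rw [div_le_one h2]; exact h1
  · norm_num

theorem err_eq {n : ℕ} (hn : 0 < n) : err n = n * tt n := by
  have h1 := log_pos' hn
  have h2 : (0 : ℝ) < n := by exact_mod_cast hn
  unfold err tt
  rw [Real.div_rpow h1.le h2.le]
  have h4 : (n : ℝ) ^ (2 / 3 : ℝ) * (n : ℝ) ^ (1 / 3 : ℝ) = n := by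
    rw [← Real.rpow_add h2]; norm_num
  have h3 : (0 : ℝ) < (n : ℝ) ^ (1 / 3 : ℝ) := by positivity
  generalize Real.log (n + 1) ^ (1 / 3 : ℝ) = u
  rw [mul_div_assoc', eq_div_iff h3.ne']
  calc (n : ℝ) ^ (2 / 3 : ℝ) * u * (n : ℝ) ^ (1 / 3 : ℝ)
      = ((n : ℝ) ^ (2 / 3 : ℝ) * (n : ℝ) ^ (1 / 3 : ℝ)) * u := by ring
    _ = n * u := by rw [h4]

theorem log_eq {n : ℕ} (hn : 0 < n) : Real.log (n + 1) = err n * tt n ^ 2 := by
  have h2 : (0 : ℝ) < n := by exact_mod_cast hn
  rw [err_eq hn]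
  have := tt_cube hn
  rw [eq_div_iff h2.ne'] at this
  rw [← this]; ring

theorem one_sub_ge {x : ℝ} (h0 : 0 ≤ x) (h1 : x ≤ 1 / 2) : Real.exp (-(2 * x)) ≤ 1 - x := by
  have h2 : 0 < 1 - x := by linarith
  have h3 : 1 / (1 - x) ≤ Real.exp (x / (1 - x)) := by
    have := Real.add_one_le_exp (x / (1 - x))
    have e : 1 / (1 - x) = x / (1 - x) + 1 := by field_simp; ring
    rw [e]; exact this
  have h4 : x / (1 - x) ≤ 2 * x := by
    rw [div_le_iff₀ h2]; nlinarith
  rw [Real.exp_neg, inv_le_comm₀ (Real.exp_pos _) h2, ← one_div]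
  exact h3.trans (Real.exp_le_exp.2 h4)

/-- for `0 < τ` there is a suitable `d` -/
theorem exists_d {τ : ℝ} (hτ : 0 < τ) : ∃ d : ℕ, 1 ≤ ((d : ℝ) + 1) * τ ^ 2 ∧ (d : ℝ) ≤ 1 / τ ^ 2 := by
  refine ⟨⌊1 / τ ^ 2⌋₊, ?_, Nat.floor_le (by positivity)⟩
  have := Nat.lt_floor_add_one (1 / τ ^ 2)
  rw [div_lt_iff₀ (by positivity)] at this
  exact this.le

theorem pow_eq_exp (n d : ℕ) : ((n : ℝ) + 1) ^ d = Real.exp (d * Real.log (n + 1)) := by
  rw [mul_comm, Real.exp_mul, Real.exp_log (by positivity), Real.rpow_natCast]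

/-- **Boxes, explicit form.** -/
theorem box_explicit (n : ℕ) (hn : 0 < n) (L : Fin n → ℝ) (hL : ∀ i, 2 ≤ L i) :
    rho n * Real.exp (-(20 * err n)) ≤ boxDensity n L := by
  have ht := tt_pos hn
  have ht1 := tt_le_one hn
  have hn0 : (0 : ℝ) < n := by exact_mod_cast hn
  have he : 0 < err n := by rw [err_eq hn]; positivity
  -- it is enough to find `τ`
  have main : ∀ τ : ℝ, 0 < τ → τ ≤ 1 / 4 →
      4 * τ * n + 1 / τ ^ 2 * Real.log (n + 1) ≤ 20 * err n →
      rho n * Real.exp (-(20 * err n)) ≤ boxDensity n L := by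
    intro τ h1 h2 h3
    obtain ⟨d, hd1, hd2⟩ := exists_d h1
    have h4 := box_ineq n L hL τ h1 (by linarith) d hd1
    have h5 : Real.exp (-(4 * τ * n)) ≤ (1 - 2 * τ) ^ n := by
      have := one_sub_ge (x := 2 * τ) (by linarith) (by linarith)
      calc Real.exp (-(4 * τ * n)) = Real.exp (-(2 * (2 * τ))) ^ n := by
            rw [← Real.exp_nat_mul]; congr 1; ring
        _ ≤ _ := pow_le_pow_left₀ (Real.exp_pos _).le this n
    have h6 : ((n : ℝ) + 1) ^ d ≤ Real.exp (1 / τ ^ 2 * Real.log (n + 1)) := by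
      rw [pow_eq_exp]
      exact Real.exp_le_exp.2 (mul_le_mul_of_nonneg_right hd2 (log_pos' hn).le)
    have hbox : 0 ≤ boxDensity n L := by
      have := (mul_nonneg (rho_nonneg n) (pow_nonneg (by linarith : (0:ℝ) ≤ 1 - 2 * τ) n)).trans h4
      exact nonneg_of_mul_nonneg_right this (by positivity)
    have h7 : rho n * Real.exp (-(4 * τ * n)) ≤
        Real.exp (1 / τ ^ 2 * Real.log (n + 1)) * boxDensity n L :=
      (mul_le_mul_of_nonneg_left h5 (rho_nonneg n)).trans
        (h4.trans (mul_le_mul_of_nonneg_right h6 hbox))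
    have h8 : rho n * Real.exp (-(4 * τ * n)) * Real.exp (-(1 / τ ^ 2 * Real.log (n + 1))) ≤
        boxDensity n L := by
      calc _ ≤ Real.exp (1 / τ ^ 2 * Real.log (n + 1)) * boxDensity n L *
            Real.exp (-(1 / τ ^ 2 * Real.log (n + 1))) :=
            mul_le_mul_of_nonneg_right h7 (Real.exp_pos _).le
        _ = boxDensity n L * (Real.exp (1 / τ ^ 2 * Real.log (n + 1)) *
            Real.exp (-(1 / τ ^ 2 * Real.log (n + 1)))) := by ring
        _ = boxDensity n L := by rw [← Real.exp_add, add_neg_cancel, Real.exp_zero, mul_one]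
    refine le_trans ?_ h8
    rw [mul_assoc, ← Real.exp_add]
    apply mul_le_mul_of_nonneg_left _ (rho_nonneg n)
    apply Real.exp_le_exp.2
    linarith
  rcases le_or_gt (tt n) (1 / 4) with h | h
  · apply main (tt n) ht h
    have h1 : 4 * tt n * n = 4 * err n := by rw [err_eq hn]; ring
    have h2 : 1 / tt n ^ 2 * Real.log (n + 1) = err n := by
      rw [log_eq hn]; field_simp
    rw [h1, h2]; linarith
  · apply main (1 / 4) (by norm_num) le_rfl
    have h1 : (n : ℝ) ≤ 4 * err n := by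
      rw [err_eq hn]; nlinarith
    have h2 : Real.log (n + 1) ≤ err n := by
      rw [log_eq hn]
      have : tt n ^ 2 ≤ 1 := by nlinarith
      nlinarith
    linarith

end Pool.Agent.U26.SP
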