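import Pool.Agent.U26.SP.Upper

/-! Exponents of periodic packings with centres on a grid (helper26). -/

set_option autoImplicit false

open MeasureTheory Metric Filter Set Pool.Agent.H818R2
open scoped Topology

namespace Pool.Agent.U26.SP

theorem limsup_le_aux {u v : ℕ → ℝ} {a b : ℝ} (hu : ∀ᶠ n in atTop, a ≤ u n)
    (hv : ∀ᶠ n in atTop, v n ≤ b) (hv' : ∀ᶠ n in atTop, a ≤ v n)
    (h : Tendsto (fun n => u n - v n) atTop (𝓝 0)) : limsup u atTop ≤ limsup v atTop := by
  have hub : IsCoboundedUnder (· ≤ ·) atTop u :=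
    (isBoundedUnder_of_eventually_ge hu).isCoboundedUnder_le
  have hvb : IsBoundedUnder (· ≤ ·) atTop v := isBoundedUnder_of_eventually_le hv
  have hvc : IsCoboundedUnder (· ≤ ·) atTop v :=
    (isBoundedUnder_of_eventually_ge hv').isCoboundedUnder_le
  apply le_of_forall_pos_le_add
  intro ε hε
  rw [← limsup_add_const atTop v ε hvb hvc]
  refine limsup_le_limsup ?_ hub (isBoundedUnder_of_eventually_le (a := b + ε) ?_)
  · filter_upwards [h.eventually (gt_mem_nhds hε)] with n hn
    linarith
  · filter_upwards [hv] with n hn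
    linarith

theorem liminf_le_aux {u v : ℕ → ℝ} {a b : ℝ} (hu : ∀ᶠ n in atTop, u n ≤ b)
    (hv : ∀ᶠ n in atTop, v n ≤ b) (hv' : ∀ᶠ n in atTop, a ≤ v n)
    (h : Tendsto (fun n => u n - v n) atTop (𝓝 0)) : liminf v atTop ≤ liminf u atTop := by
  have hub : IsCoboundedUnder (· ≥ ·) atTop u :=
    (isBoundedUnder_of_eventually_le hu).isCoboundedUnder_ge
  have hvb : IsCoboundedUnder (· ≥ ·) atTop v :=
    (isBoundedUnder_of_eventually_le hv).isCoboundedUnder_ge
  have hvc : IsBoundedUnder (· ≥ ·) atTop v := isBoundedUnder_of_eventually_ge hv'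
  apply le_of_forall_pos_le_add
  intro ε hε
  have : liminf v atTop - ε ≤ liminf u atTop := by
    have e := liminf_add_const atTop v (-ε) hvb hvc
    have : liminf v atTop - ε = liminf v atTop + -ε := by ring
    rw [this, ← e]
    refine liminf_le_liminf ?_ (isBoundedUnder_of_eventually_ge (a := a + -ε) ?_) hub
    · filter_upwards [h.eventually (lt_mem_nhds (neg_lt_zero.2 hε))] with n hn
      linarith
    · filter_upwards [hv'] with n hn
      linarith
  linarith

theorem lim_eq {u v : ℕ → ℝ} {a b : ℝ} (hv : ∀ n, v n ≤ b) (hv' : ∀ n, a ≤ v n)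
    (h : Tendsto (fun n => u n - v n) atTop (𝓝 0)) :
    liminf u atTop = liminf v atTop ∧ limsup u atTop = limsup v atTop := by
  have h' : Tendsto (fun n => v n - u n) atTop (𝓝 0) := by
    have := h.neg
    rw [neg_zero] at this
    refine this.congr fun n => ?_
    ring
  have hu : ∀ᶠ n in atTop, u n ≤ b + 1 := by
    filter_upwards [h.eventually (gt_mem_nhds one_pos)] with n hn
    linarith [hv n]
  have hu' : ∀ᶠ n in atTop, a - 1 ≤ u n := by
    filter_upwards [h.eventually (lt_mem_nhds (neg_lt_zero.2 one_pos))] with n hn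
    linarith [hv' n]
  have hv1 : ∀ᶠ n in atTop, v n ≤ b + 1 := Eventually.of_forall fun n => by linarith [hv n]
  have hv1' : ∀ᶠ n in atTop, a - 1 ≤ v n := Eventually.of_forall fun n => by linarith [hv' n]
  exact ⟨le_antisymm (liminf_le_aux hv1 hu hu' h') (liminf_le_aux hu hv1 hv1' h),
    le_antisymm (limsup_le_aux hu' hv1 hv1' h) (limsup_le_aux hv1' hu hu' h')⟩

theorem tendsto_err_div : Tendsto (fun n : ℕ => err n / n) atTop (𝓝 0) := by
  have h1 : Tendsto (fun x : ℝ => Real.log x / x) atTop (𝓝 0) := by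
    simpa using Real.tendsto_pow_log_div_mul_add_atTop 1 0 1 one_ne_zero
  have h2 : Tendsto (fun n : ℕ => (n : ℝ) + 1) atTop atTop :=
    tendsto_atTop_add_const_right _ _ tendsto_natCast_atTop_atTop
  have h3 : Tendsto (fun n : ℕ => 2 * (Real.log ((n : ℝ) + 1) / ((n : ℝ) + 1))) atTop (𝓝 0) := by
    have := (h1.comp h2).const_mul 2
    rwa [mul_zero] at this
  have h4 : Tendsto (fun n : ℕ => (2 * (Real.log ((n : ℝ) + 1) / ((n : ℝ) + 1))) ^ (1 / 3 : ℝ))
      atTop (𝓝 0) := by
    have := h3.rpow_const (p := (1 / 3 : ℝ)) (Or.inr (by norm_num))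
    rwa [Real.zero_rpow (by norm_num)] at this
  refine squeeze_zero' ?_ ?_ h4
  · filter_upwards [eventually_gt_atTop 0] with n hn
    rw [err_eq hn]
    have := tt_pos hn
    positivity
  · filter_upwards [eventually_gt_atTop 0] with n hn
    have hn0 : (1 : ℝ) ≤ n := by exact_mod_cast hn
    have hl := log_pos' hn
    have e : err n / n = tt n := by rw [err_eq hn]; field_simp
    rw [e]
    unfold tt
    apply Real.rpow_le_rpow (by positivity) _ (by norm_num)
    rw [← mul_div_assoc, div_le_div_iff₀ (by positivity) (by positivity)]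
    nlinarith

/-- sequences of densities between `rho n * exp (- e n)` and `rho n` -/
theorem exponent_limits {D e : ℕ → ℝ} (h1 : ∀ᶠ n in atTop, rho n * Real.exp (-(e n)) ≤ D n)
    (h2 : ∀ n, D n ≤ rho n) (he : Tendsto (fun n : ℕ => e n / n) atTop (𝓝 0)) :
    Tendsto (fun n : ℕ => -(Real.logb 2 (D n)) / n - rate n) atTop (𝓝 0) := by
  have hl2 : 0 < Real.log 2 := Real.log_pos (by norm_num)
  have h3 : Tendsto (fun n : ℕ => e n / n / Real.log 2) atTop (𝓝 0) := by
    have := he.div_const (Real.log 2)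
    rwa [zero_div] at this
  refine squeeze_zero' ?_ ?_ h3
  · filter_upwards [h1, eventually_gt_atTop 0] with n hn hn1
    have hn0 : (0 : ℝ) < n := by exact_mod_cast hn1
    have hr := rho_pos hn1
    have hD : 0 < D n := lt_of_lt_of_le (mul_pos hr (Real.exp_pos _)) hn
    unfold rate
    rw [← sub_div]
    apply div_nonneg _ hn0.le
    have := Real.logb_le_logb_of_le (b := 2) (by norm_num) hD (h2 n)
    linarith
  · filter_upwards [h1, eventually_gt_atTop 0] with n hn hn1
    have hn0 : (0 : ℝ) < n := by exact_mod_cast hn1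
    have hr := rho_pos hn1
    have hD : 0 < D n := lt_of_lt_of_le (mul_pos hr (Real.exp_pos _)) hn
    unfold rate
    rw [← sub_div, div_right_comm]
    apply div_le_div_of_nonneg_right _ hn0.le
    rw [le_div_iff₀ hl2]
    have h5 := Real.log_le_log (mul_pos hr (Real.exp_pos _)) hn
    rw [Real.log_mul hr.ne' (Real.exp_pos _).ne', Real.log_exp] at h5
    unfold Real.logb
    have : (-(Real.log (D n) / Real.log 2) - -(Real.log (rho n) / Real.log 2)) * Real.log 2 =
        Real.log (rho n) - Real.log (D n) := by field_simp; ring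
    rw [this]
    linarith

/-- **Fine grids carry packings with the optimal exponent.** -/
theorem grid_limits (L : (n : ℕ) → Fin n → ℝ) (q : (n : ℕ) → Fin n → ℕ) (h : ℕ → ℝ)
    (hL : ∀ n i, 2 ≤ L n i) (hq : ∀ n i, 0 < q n i ∧ L n i / q n i ≤ h n)
    (hh : Tendsto (fun n : ℕ => √n * h n) atTop (𝓝 0)) :
    Tendsto (fun n : ℕ => -(Real.logb 2 (gridDensity n (L n) (q n))) / n - rate n) atTop (𝓝 0) := by
  apply exponent_limits (e := fun n => 72 * err n + n * (√n * h n / 2))
  · filter_upwards [eventually_gt_atTop 0, hh.eventually (gt_mem_nhds (show (0 : ℝ) < 2 by norm_num))]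
      with n hn hn2
    exact grid_explicit n hn (L n) (q n) (hL n) (fun i => (hq n i).1) (h n)
      (fun i => (hq n i).2) hn2.le
  · intro n
    exact gridDensity_le n (L n) (q n)
  · have h1 := (tendsto_err_div.const_mul 72).add (hh.div_const 2)
    rw [mul_zero, zero_div, add_zero] at h1
    refine h1.congr' ?_
    filter_upwards [eventually_gt_atTop 0] with n hn
    have hn0 : (0 : ℝ) < n := by exact_mod_cast hn
    field_simp

end Pool.Agent.U26.SP
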