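import Pool.Agent.U26.SP.Grid

/-! Coarse grids only carry thin packings (helper26). -/

set_option autoImplicit false

open MeasureTheory Metric Filter Set Pool.Agent.H818R2
open scoped Topology

namespace Pool.Agent.U26.SP

theorem vb_le (n : ℕ) (hn : 0 < n) :
    vb (EuclideanSpace ℝ (Fin n)) ≤ √(2 * Real.pi * Real.exp 1 / n) ^ n := by
  have hn0 : (0 : ℝ) < n := by exact_mod_cast hn
  set b : ℝ := n / 2 with hb
  have hb0 : 0 < b := by positivity
  have h1 := GaussianFourier.integral_rexp_neg_mul_sq_norm (V := EuclideanSpace ℝ (Fin n)) hb0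
  rw [finrank_euclideanSpace_fin] at h1
  have hint : Integrable (fun v : EuclideanSpace ℝ (Fin n) => Real.exp (-b * ‖v‖ ^ 2)) := by
    apply Integrable.of_integral_ne_zero
    rw [h1]
    exact (Real.rpow_pos_of_pos (by positivity) _).ne'
  have h2 := mul_meas_ge_le_integral_of_nonneg (μ := (volume : Measure (EuclideanSpace ℝ (Fin n))))
    (f := fun v : EuclideanSpace ℝ (Fin n) => Real.exp (-b * ‖v‖ ^ 2))
    (Eventually.of_forall fun v => (Real.exp_pos _).le) hint (Real.exp (-b))
  have hfin : volume {v : EuclideanSpace ℝ (Fin n) | Real.exp (-b) ≤ Real.exp (-b * ‖v‖ ^ 2)}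
      ≠ ⊤ := by
    refine ((measure_mono ?_).trans_lt
      (measure_closedBall_lt_top (x := (0 : EuclideanSpace ℝ (Fin n))) (r := 1))).ne
    intro v hv
    rw [mem_ofPred_eq, Real.exp_le_exp] at hv
    rw [mem_closedBall_zero_iff]
    have : ‖v‖ ^ 2 ≤ 1 ^ 2 := by nlinarith
    exact (pow_le_pow_iff_left₀ (norm_nonneg _) (by norm_num) (by norm_num)).1 this
  have h3 : vb (EuclideanSpace ℝ (Fin n)) ≤ volume.real
      {v : EuclideanSpace ℝ (Fin n) | Real.exp (-b) ≤ Real.exp (-b * ‖v‖ ^ 2)} := by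
    apply measureReal_mono _ hfin
    intro v hv
    rw [mem_ball_zero_iff] at hv
    rw [mem_ofPred_eq, Real.exp_le_exp]
    have : ‖v‖ ^ 2 ≤ 1 := pow_le_one₀ (norm_nonneg _) hv.le
    nlinarith
  have h4 : Real.exp (-b) * vb (EuclideanSpace ℝ (Fin n)) ≤ (Real.pi / b) ^ ((n : ℝ) / 2) := by
    rw [← h1]
    exact (mul_le_mul_of_nonneg_left h3 (Real.exp_pos _).le).trans h2
  have h5 : vb (EuclideanSpace ℝ (Fin n)) ≤ Real.exp b * (Real.pi / b) ^ ((n : ℝ) / 2) := by
    calc vb (EuclideanSpace ℝ (Fin n))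
        = Real.exp b * (Real.exp (-b) * vb (EuclideanSpace ℝ (Fin n))) := by
          rw [← mul_assoc, ← Real.exp_add, add_neg_cancel, Real.exp_zero, one_mul]
      _ ≤ _ := mul_le_mul_of_nonneg_left h4 (Real.exp_pos _).le
  refine h5.trans (le_of_eq ?_)
  have e1 : Real.exp b = (Real.exp 1) ^ ((n : ℝ) / 2) := by
    rw [← Real.exp_mul, one_mul]
  rw [e1, ← Real.mul_rpow (Real.exp_pos _).le (by positivity)]
  have e2 : Real.exp 1 * (Real.pi / b) = 2 * Real.pi * Real.exp 1 / n := by
    rw [hb]; field_simp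
  rw [e2]
  have h6 : (0 : ℝ) ≤ 2 * Real.pi * Real.exp 1 / n := by positivity
  rw [Real.sqrt_eq_rpow, ← Real.rpow_natCast, ← Real.rpow_mul h6]
  congr 1
  ring

theorem box_meas' (n : ℕ) (L : Fin n → ℝ) : MeasurableSet (box n L) := by
  have h0 : box n L = (WithLp.ofLp : EuclideanSpace ℝ (Fin n) → (Fin n → ℝ)) ⁻¹'
      (Set.pi univ fun i => Ico 0 (L i)) := by
    ext x
    simp [box, Set.mem_pi]
  rw [h0]
  exact (PiLp.volume_preserving_ofLp (Fin n)).measurable
    (MeasurableSet.univ_pi fun _ => measurableSet_Ico)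

theorem vol_cell (n : ℕ) (g : Fin n → ℝ) (hg : ∀ i, 0 < g i) (x : EuclideanSpace ℝ (Fin n)) :
    volume.real ((fun z => z - x) ⁻¹' box n g) = ∏ i, g i := by
  simp only [sub_eq_add_neg]
  rw [measureReal_def, measure_preimage_add_right, ← measureReal_def, box_vol n g hg]

/-- finite subsets of the grid in a ball -/
theorem grid_count {n : ℕ} {g : Fin n → ℝ} (hg : ∀ i, 0 < g i)
    {F : Finset (EuclideanSpace ℝ (Fin n))} (hF : OnGrid g (F : Set (EuclideanSpace ℝ (Fin n))))
    {T : ℝ} (hT : 0 ≤ T) (hFT : ∀ x ∈ F, ‖x‖ ≤ T) :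
    (F.card : ℝ) * ∏ i, g i ≤ (T + √(∑ i, g i ^ 2)) ^ n * vb (EuclideanSpace ℝ (Fin n)) := by
  set D := √(∑ i, g i ^ 2) with hD
  have hD0 : 0 ≤ D := Real.sqrt_nonneg _
  have hfr : Module.finrank ℝ (EuclideanSpace ℝ (Fin n)) = n := finrank_euclideanSpace_fin
  have h1 : volume.real (⋃ x ∈ F, (fun z => z - x) ⁻¹' box n g) =
      ∑ x ∈ F, volume.real ((fun z => z - x) ⁻¹' box n g) := by
    apply measureReal_biUnion_finset
    · intro x hx y hy hxy
      rw [Function.onFun, Set.disjoint_left]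
      intro z hz1 hz2
      apply hxy
      ext i
      obtain ⟨a, ha⟩ := hF x hx i
      obtain ⟨b, hb⟩ := hF y hy i
      have h3 := hz1 i
      have h4 := hz2 i
      rw [PiLp.sub_apply, ha] at h3
      rw [PiLp.sub_apply, hb] at h4
      have h31 := h3.1; have h32 := h3.2; have h41 := h4.1; have h42 := h4.2
      have hab : a = b := by
        by_contra hne
        rcases lt_or_gt_of_ne hne with h | h
        · have : (a : ℝ) + 1 ≤ b := by exact_mod_cast h
          nlinarith [hg i]
        · have : (b : ℝ) + 1 ≤ a := by exact_mod_cast h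
          nlinarith [hg i]
      rw [ha, hb, hab]
    · intro x _
      exact (measurable_id.sub_const x) (box_meas' n g)
    · intro x _
      have : volume.real ((fun z => z - x) ⁻¹' box n g) ≠ 0 := by
        rw [vol_cell n g hg]
        exact (Finset.prod_pos fun i _ => hg i).ne'
      intro h
      rw [measureReal_def, h] at this
      exact this rfl
  have h2 : ∀ x ∈ F, volume.real ((fun z => z - x) ⁻¹' box n g) = ∏ i, g i := by
    intro x _
    exact vol_cell n g hg x
  rw [Finset.sum_congr rfl h2, Finset.sum_const, nsmul_eq_mul] at h1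
  rw [← h1]
  have h3 : volume.real (closedBall (0 : EuclideanSpace ℝ (Fin n)) (T + D)) =
      (T + D) ^ n * vb (EuclideanSpace ℝ (Fin n)) := by
    rw [vol_closedBall _ (by linarith), hfr]
  rw [← h3]
  apply measureReal_mono _ measure_closedBall_lt_top.ne
  apply iUnion₂_subset
  intro x hx z hz
  rw [mem_closedBall_zero_iff]
  have h4 : ‖z - x‖ ≤ D := norm_le_of_box fun i => ⟨(hz i).1, (hz i).2.le⟩
  calc ‖z‖ = ‖x + (z - x)‖ := by congr 1; abel
    _ ≤ ‖x‖ + ‖z - x‖ := norm_add_le _ _
    _ ≤ T + D := by linarith [hFT x hx]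

/-- the density of a packing with centres on a grid is at most the volume of the ball divided by
the covolume of the grid -/
theorem upperDensity_grid {n : ℕ} {g : Fin n → ℝ} (hg : ∀ i, 0 < g i)
    {X : Set (EuclideanSpace ℝ (Fin n))} (hX : IsPacking X 1) (hXg : OnGrid g X) :
    upperDensity X 1 ≤ vb (EuclideanSpace ℝ (Fin n)) / ∏ i, g i := by
  set D := √(∑ i, g i ^ 2) with hD
  have hD0 : 0 ≤ D := Real.sqrt_nonneg _
  set V := vb (EuclideanSpace ℝ (Fin n)) with hV
  have hV0 : 0 < V := vb_pos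
  have hP : 0 < ∏ i, g i := Finset.prod_pos fun i _ => hg i
  have hfr : Module.finrank ℝ (EuclideanSpace ℝ (Fin n)) = n := finrank_euclideanSpace_fin
  have h1 : ∀ᶠ R : ℝ in atTop,
      volume.real (ball (0 : EuclideanSpace ℝ (Fin n)) R ∩ body X 1) /
        volume.real (ball (0 : EuclideanSpace ℝ (Fin n)) R)
      ≤ V / (∏ i, g i) * ((R + 1 + D) / R) ^ n := by
    filter_upwards [eventually_gt_atTop 0] with R hR
    have h2 := body_le hX R
    have h3 := grid_count hg (F := (finite_inter hX (R + 1)).toFinset)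
      (fun x hx => hXg x (by
        rw [Finset.mem_coe, Finite.mem_toFinset] at hx
        exact hx.1)) (T := R + 1) (by linarith)
      (fun x hx => by
        simp only [Finite.mem_toFinset, mem_inter_iff, mem_closedBall_zero_iff] at hx
        exact hx.2)
    rw [vol_ball 0 hR, hfr]
    have h4 : ((finite_inter hX (R + 1)).toFinset.card : ℝ)
        ≤ ((R + 1 + D) ^ n * V) / (∏ i, g i) := by
      rw [le_div_iff₀ hP]; exact h3
    calc volume.real (ball (0 : EuclideanSpace ℝ (Fin n)) R ∩ body X 1) / (R ^ n * V)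
        ≤ (((R + 1 + D) ^ n * V) / (∏ i, g i) * V) / (R ^ n * V) := by
          apply div_le_div_of_nonneg_right _ (by positivity)
          exact h2.trans (mul_le_mul_of_nonneg_right h4 hV0.le)
      _ = V / (∏ i, g i) * ((R + 1 + D) / R) ^ n := by
          rw [div_pow]; field_simp
  have h5 : Tendsto (fun R : ℝ => V / (∏ i, g i) * ((R + 1 + D) / R) ^ n) atTop
      (𝓝 (V / (∏ i, g i) * 1 ^ n)) := by
    apply Tendsto.const_mul
    apply Tendsto.pow
    have : Tendsto (fun R : ℝ => 1 + (1 + D) / R) atTop (𝓝 (1 + 0)) :=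
      tendsto_const_nhds.add (tendsto_const_nhds.div_atTop tendsto_id)
    rw [add_zero] at this
    refine this.congr' ?_
    filter_upwards [eventually_gt_atTop 0] with R hR
    field_simp
    ring
  rw [one_pow, mul_one] at h5
  calc upperDensity X 1 ≤ limsup (fun R : ℝ => V / (∏ i, g i) * ((R + 1 + D) / R) ^ n)
        atTop := limsup_le_limsup h1 (ratio_cobdd X 1) h5.isBoundedUnder_le
    _ = _ := h5.limsup_eq

/-- **Coarse grids.** -/
theorem grid_coarse (n : ℕ) (hn : 0 < n) (L : Fin n → ℝ) (q : Fin n → ℕ) (h : ℝ) (hh0 : 0 < h)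
    (hh : ∀ i, h ≤ L i / q i) :
    gridDensity n L q ≤ (2 * √(2 * Real.pi * Real.exp 1) / (√n * h)) ^ n * rho n := by
  have hn0 : (0 : ℝ) < n := by exact_mod_cast hn
  have hg : ∀ i, 0 < L i / q i := fun i => hh0.trans_le (hh i)
  have hP : 0 < ∏ i, L i / q i := Finset.prod_pos fun i _ => hg i
  have h1 : h ^ n ≤ ∏ i, L i / q i := by
    calc h ^ n = ∏ _i : Fin n, h := by
          rw [Finset.prod_const, Finset.card_univ, Fintype.card_fin]
      _ ≤ _ := Finset.prod_le_prod (fun i _ => hh0.le) fun i _ => hh i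
  have h2 : gridDensity n L q ≤ vb (EuclideanSpace ℝ (Fin n)) / h ^ n := by
    apply csSup_le
    · exact ⟨_, ∅, isPacking_empty, fun i x => by simp, fun x hx => absurd hx (by simp), rfl⟩
    · rintro δ ⟨X, h1', -, h3, rfl⟩
      exact (upperDensity_grid hg h1' h3).trans
        (div_le_div_of_nonneg_left vb_pos.le (by positivity) h1)
  have h3 : vb (EuclideanSpace ℝ (Fin n)) / h ^ n ≤
      (2 * √(2 * Real.pi * Real.exp 1) / (√n * h)) ^ n * (1 / 2) ^ n := by
    have e : (2 * √(2 * Real.pi * Real.exp 1) / (√n * h)) ^ n * (1 / 2) ^ n =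
        √(2 * Real.pi * Real.exp 1 / n) ^ n / h ^ n := by
      rw [← mul_pow, ← div_pow]
      congr 1
      rw [Real.sqrt_div (by positivity)]
      field_simp
    rw [e]
    exact div_le_div_of_nonneg_right (vb_le n hn) (by positivity)
  exact h2.trans (h3.trans (mul_le_mul_of_nonneg_left (le_rho hn) (by positivity)))

end Pool.Agent.U26.SP
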