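import Mathlib

/-! Weighted codes in the Hamming space (helper26). -/

set_option autoImplicit false

namespace Pool.Agent.U26.SP

open Finset

section greedy
variable {α : Type*} [Fintype α] [DecidableEq α]

/-- greedy choice of an independent set of large weight -/
theorem greedy (R : α → α → Prop) [DecidableRel R] (hr : ∀ x, R x x) (hs : ∀ x y, R x y → R y x)
    (V : ℕ) (hV : ∀ x, (univ.filter (fun y => R x y)).card ≤ V) (w : α → ℕ) (S : Finset α) :
    ∃ C ⊆ S, (∀ x ∈ C, ∀ y ∈ C, x ≠ y → ¬ R x y) ∧ ∑ x ∈ S, w x ≤ V * ∑ x ∈ C, w x := by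
  induction S using Finset.strongInduction with
  | H S ih =>
    rcases S.eq_empty_or_nonempty with rfl | hne
    · exact ⟨∅, by simp, by simp, by simp⟩
    · obtain ⟨x, hx, hmax⟩ := exists_max_image S w hne
      have hss : S.filter (fun y => ¬ R x y) ⊂ S := by
        refine ⟨filter_subset _ _, fun h => ?_⟩
        have := (mem_filter.1 (h hx)).2
        exact this (hr x)
      obtain ⟨C, hCS, hCi, hCw⟩ := ih _ hss
      refine ⟨insert x C, ?_, ?_, ?_⟩
      · exact insert_subset hx (hCS.trans (filter_subset _ _))
      · intro a ha b hb hab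
        rcases mem_insert.1 ha with ha1 | ha1
        · subst ha1
          rcases mem_insert.1 hb with hb1 | hb1
          · exact absurd hb1.symm hab
          · exact (mem_filter.1 (hCS hb1)).2
        · rcases mem_insert.1 hb with hb1 | hb1
          · subst hb1
            exact fun h => (mem_filter.1 (hCS ha1)).2 (hs _ _ h)
          · exact hCi a ha1 b hb1 hab
      · have hxC : x ∉ C := fun h => (mem_filter.1 (hCS h)).2 (hr x)
        rw [sum_insert hxC, mul_add, ← sum_filter_add_sum_filter_not S (fun y => R x y)]
        refine add_le_add ?_ hCw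
        calc ∑ y ∈ S.filter (fun y => R x y), w y ≤ ∑ y ∈ S.filter (fun y => R x y), w x :=
              sum_le_sum fun y hy => hmax y (mem_filter.1 hy).1
          _ = (S.filter (fun y => R x y)).card * w x := by rw [sum_const, smul_eq_mul]
          _ ≤ V * w x := by
              apply Nat.mul_le_mul_right
              exact (card_le_card (filter_subset_filter _ (subset_univ S))).trans (hV x)

end greedy

/-- the number of words in a Hamming ball -/
theorem hamming_ball (n d : ℕ) (x : Fin n → Bool) :
    (univ.filter (fun y : Fin n → Bool => (univ.filter (fun i => x i ≠ y i)).card ≤ d)).card ≤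
      (n + 1) ^ d := by
  classical
  let f : (Fin d → Option (Fin n)) → (Fin n → Bool) :=
    fun g i => if ∃ j, g j = some i then !(x i) else x i
  have hsub : univ.filter (fun y : Fin n → Bool => (univ.filter (fun i => x i ≠ y i)).card ≤ d) ⊆
      (univ : Finset (Fin d → Option (Fin n))).image f := by
    intro y hy
    have hy' := (mem_filter.1 hy).2
    set D := univ.filter (fun i => x i ≠ y i) with hD
    let e := D.equivFin
    let g : Fin d → Option (Fin n) := fun j =>
      if h : (j : ℕ) < D.card then some (e.symm ⟨j, h⟩ : Fin n) else none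
    refine mem_image.2 ⟨g, mem_univ _, ?_⟩
    funext i
    by_cases hi : i ∈ D
    · have hex : ∃ j, g j = some i := by
        have hlt : ((e ⟨i, hi⟩ : Fin D.card) : ℕ) < d := lt_of_lt_of_le (e ⟨i, hi⟩).2 hy'
        refine ⟨⟨e ⟨i, hi⟩, hlt⟩, ?_⟩
        have : ((e ⟨i, hi⟩ : Fin D.card) : ℕ) < D.card := (e ⟨i, hi⟩).2
        simp only [g, dif_pos this]
        congr 1
        have : (⟨((e ⟨i, hi⟩ : Fin D.card) : ℕ), this⟩ : Fin D.card) = e ⟨i, hi⟩ := rfl
        rw [this, Equiv.symm_apply_apply]
      have hne : x i ≠ y i := (mem_filter.1 hi).2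
      simp only [f, if_pos hex]
      cases hx : x i <;> cases hy2 : y i <;> simp_all
    · have hex : ¬ ∃ j, g j = some i := by
        rintro ⟨j, hj⟩
        simp only [g] at hj
        split_ifs at hj with h
        have := (e.symm ⟨j, h⟩).2
        rw [Option.some.inj hj] at this
        exact hi this
      simp only [f, if_neg hex]
      by_contra hne
      exact hi (mem_filter.2 ⟨mem_univ _, hne⟩)
  refine (card_le_card hsub).trans (card_image_le.trans ?_)
  rw [card_univ, Fintype.card_fun, Fintype.card_fin, Fintype.card_option, Fintype.card_fin]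

/-- Let `b` colour the points of `P` by words of length `n`. At least one out of `(n + 1) ^ d` points
can be chosen such that the words of the chosen points are equal or have distance larger than
`d`. -/
theorem choose_points {E : Type*} [DecidableEq E] (n d : ℕ) (P : Finset E) (b : E → Fin n → Bool) :
    ∃ Y ⊆ P, P.card ≤ (n + 1) ^ d * Y.card ∧
      ∀ x ∈ Y, ∀ y ∈ Y, b x = b y ∨ d < (univ.filter (fun i => b x i ≠ b y i)).card := by
  classical
  obtain ⟨C, -, hC, hw⟩ := greedy (fun x y : Fin n → Bool =>
    (univ.filter (fun i => x i ≠ y i)).card ≤ d) (fun x => by simp)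
    (fun x y h => by simpa [ne_comm] using h) ((n + 1) ^ d) (fun x => hamming_ball n d x)
    (fun c => (P.filter (fun p => b p = c)).card) univ
  refine ⟨P.filter (fun p => b p ∈ C), filter_subset _ _, ?_, ?_⟩
  · have h1 : P.card = ∑ c, (P.filter (fun p => b p = c)).card :=
      card_eq_sum_card_fiberwise fun p _ => mem_univ _
    have h2 : (P.filter (fun p => b p ∈ C)).card = ∑ c ∈ C, (P.filter (fun p => b p = c)).card := by
      have h3 := card_eq_sum_card_fiberwise (f := b) (s := P.filter (fun p => b p ∈ C)) (t := C)
        (fun p hp => by simpa using (mem_filter.1 (mem_coe.1 hp)).2)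
      rw [h3]
      refine sum_congr rfl fun c hc => ?_
      congr 1
      ext p
      simp only [mem_filter]
      constructor
      · rintro ⟨⟨h1, -⟩, h2⟩; exact ⟨h1, h2⟩
      · rintro ⟨h1, h2⟩; exact ⟨⟨h1, h2 ▸ hc⟩, h2⟩
    rw [h1, h2]
    exact hw
  · intro x hx y hy
    by_cases h : b x = b y
    · exact Or.inl h
    · right
      have := hC _ (mem_filter.1 hx).2 _ (mem_filter.1 hy).2 h
      omega

end Pool.Agent.U26.SP
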