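import Pool.Agent.H818R2.Limit
import Pool.Agent.U26.SP.Code

/-! Separated sets in flat tori with cubical (or box) fundamental domains (helper26). -/

set_option autoImplicit false

open MeasureTheory Metric Filter Set Pool.Agent.H818R2

namespace Pool.Agent.U26.SP

/-- the points of the box whose coordinates are not close to multiples of `L i / 2` -/
def reg (n : ℕ) (L : Fin n → ℝ) (τ : ℝ) : Set (EuclideanSpace ℝ (Fin n)) :=
  {x | ∀ i, x i ∈ Icc τ (L i / 2 - τ) ∪ Icc (L i / 2 + τ) (L i - τ)}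

theorem reg_eq (n : ℕ) (L : Fin n → ℝ) (τ : ℝ) : reg n L τ =
    (WithLp.ofLp : EuclideanSpace ℝ (Fin n) → (Fin n → ℝ)) ⁻¹'
      (Set.pi univ fun i => Icc τ (L i / 2 - τ) ∪ Icc (L i / 2 + τ) (L i - τ)) := by
  ext x
  simp [reg, Set.mem_pi]

theorem meas_pi (n : ℕ) (L : Fin n → ℝ) (τ : ℝ) : MeasurableSet
    (Set.pi univ fun i : Fin n => Icc τ (L i / 2 - τ) ∪ Icc (L i / 2 + τ) (L i - τ)) :=
  MeasurableSet.univ_pi fun _ => measurableSet_Icc.union measurableSet_Icc

theorem reg_meas (n : ℕ) (L : Fin n → ℝ) (τ : ℝ) : MeasurableSet (reg n L τ) := by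
  rw [reg_eq]
  exact (PiLp.volume_preserving_ofLp (Fin n)).measurable (meas_pi n L τ)

theorem reg_vol (n : ℕ) (L : Fin n → ℝ) (τ : ℝ) (hτ : 0 < τ) (h4 : ∀ i, 4 * τ < L i) :
    volume.real (reg n L τ) = ∏ i, (L i - 4 * τ) := by
  rw [measureReal_def, reg_eq, (PiLp.volume_preserving_ofLp (Fin n)).measure_preimage
    (meas_pi n L τ).nullMeasurableSet, volume_pi_pi]
  have h1 : ∀ i, volume (Icc τ (L i / 2 - τ) ∪ Icc (L i / 2 + τ) (L i - τ)) =
      ENNReal.ofReal (L i - 4 * τ) := by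
    intro i
    rw [measure_union _ measurableSet_Icc, Real.volume_Icc, Real.volume_Icc,
      ← ENNReal.ofReal_add (by linarith [h4 i]) (by linarith [h4 i])]
    · congr 1; ring
    · rw [Set.disjoint_left]
      rintro x ⟨-, h1⟩ ⟨h2, -⟩
      linarith
  simp only [h1]
  rw [ENNReal.toReal_prod]
  exact Finset.prod_congr rfl fun i _ => ENNReal.toReal_ofReal (by linarith [h4 i])

theorem norm_le_of_box {n : ℕ} {L : Fin n → ℝ} {x : EuclideanSpace ℝ (Fin n)}
    (h : ∀ i, 0 ≤ x i ∧ x i ≤ L i) : ‖x‖ ≤ √(∑ i, L i ^ 2) := by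
  rw [EuclideanSpace.norm_eq]
  apply Real.sqrt_le_sqrt
  apply Finset.sum_le_sum
  intro i _
  rw [Real.norm_eq_abs, sq_abs]
  exact pow_le_pow_left₀ (h i).1 (h i).2 2

theorem reg_sub (n : ℕ) (L : Fin n → ℝ) (τ : ℝ) (hτ : 0 < τ) {x : EuclideanSpace ℝ (Fin n)}
    (hx : x ∈ reg n L τ) (i : Fin n) : 0 ≤ x i ∧ x i < L i := by
  rcases hx i with h | h
  · have h1 := h.1; have h2 := h.2
    constructor
    · linarith
    · linarith
  · have h1 := h.1; have h2 := h.2
    constructor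
    · linarith
    · linarith

theorem coord_far {L τ x y : ℝ} (hL : 0 < L) (hx : x ∈ Icc τ (L / 2 - τ))
    (hy : y ∈ Icc (L / 2 + τ) (L - τ)) (k : ℤ) : 2 * τ ≤ |x - y + k * L| := by
  have h1 := hx.1; have h2 := hx.2; have h3 := hy.1; have h4 := hy.2
  rcases le_or_gt k 0 with hk | hk
  · have : (k : ℝ) ≤ 0 := by exact_mod_cast hk
    have h5 : (k : ℝ) * L ≤ 0 := mul_nonpos_of_nonpos_of_nonneg this hL.le
    rw [le_abs]; right; linarith
  · have : (1 : ℝ) ≤ k := by exact_mod_cast hk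
    have h5 : L ≤ (k : ℝ) * L := by nlinarith
    rw [le_abs]; left; linarith

theorem coord_near {L x : ℝ} (hL : 0 < L) (hx : |x| ≤ L / 2) (k : ℤ) :
    |x| ≤ |x + k * L| := by
  have h1 := abs_le.1 hx
  rcases lt_trichotomy k 0 with hk | hk | hk
  · have : (k : ℝ) ≤ -1 := by exact_mod_cast (by omega : k ≤ -1)
    have h5 : (k : ℝ) * L ≤ -L := by nlinarith
    refine hx.trans ?_
    rw [le_abs]; right; linarith
  · subst hk; simp
  · have : (1 : ℝ) ≤ k := by exact_mod_cast hk
    have h5 : L ≤ (k : ℝ) * L := by nlinarith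
    refine hx.trans ?_
    rw [le_abs]; left; linarith

/-- the word of a point: in which half of the box are its coordinates? -/
noncomputable def word (n : ℕ) (L : Fin n → ℝ) (x : EuclideanSpace ℝ (Fin n)) : Fin n → Bool :=
  fun i => decide (x i < L i / 2)

theorem word_eq {n : ℕ} {L : Fin n → ℝ} {τ : ℝ} (hτ : 0 < τ) {x : EuclideanSpace ℝ (Fin n)}
    (hx : x ∈ reg n L τ) (i : Fin n) :
    (word n L x i = true ∧ x i ∈ Icc τ (L i / 2 - τ)) ∨
    (word n L x i = false ∧ x i ∈ Icc (L i / 2 + τ) (L i - τ)) := by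
  rcases hx i with h | h
  · left
    refine ⟨?_, h⟩
    have := h.2
    simp only [word, decide_eq_true_eq]
    linarith
  · right
    refine ⟨?_, h⟩
    have := h.1
    simp only [word, decide_eq_false_iff_not]
    linarith

/-- **Separated sets in the torus.** -/
theorem exists_torus (n : ℕ) (L : Fin n → ℝ) (hL : ∀ i, 0 < L i) (τ : ℝ) (hτ : 0 < τ)
    (h4 : ∀ i, 4 * τ < L i) (d : ℕ) (hd : 1 ≤ (d + 1) * τ ^ 2) :
    ∃ Y : Finset (EuclideanSpace ℝ (Fin n)), (∀ x ∈ Y, ∀ i, 0 ≤ x i ∧ x i < L i) ∧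
      (∀ x ∈ Y, ∀ y ∈ Y, x ≠ y → ∀ k : Fin n → ℤ, 4 ≤ ∑ i, (x i - y i + k i * L i) ^ 2) ∧
      rho n * ∏ i, (L i - 4 * τ) ≤ (n + 1) ^ d * Y.card * vb (EuclideanSpace ℝ (Fin n)) := by
  classical
  have hpos : 0 < volume.real (reg n L τ) := by
    rw [reg_vol n L τ hτ h4]
    exact Finset.prod_pos fun i _ => by linarith [h4 i]
  obtain ⟨P, hP, hPG, hPc⟩ := exists_large (reg_meas n L τ) (a := √(∑ i, L i ^ 2))
    (Real.sqrt_nonneg _) (fun x hx => by
      rw [mem_closedBall_zero_iff]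
      exact norm_le_of_box fun i => ⟨(reg_sub n L τ hτ hx i).1, (reg_sub n L τ hτ hx i).2.le⟩) hpos
  obtain ⟨Y, hYP, hYc, hY⟩ := choose_points n d P (word n L)
  have hYG : ∀ x ∈ Y, x ∈ reg n L τ := fun x hx => hPG (hYP hx)
  refine ⟨Y, fun x hx i => reg_sub n L τ hτ (hYG x hx) i, ?_, ?_⟩
  · intro x hx y hy hxy k
    rcases hY x hx y hy with h | h
    · -- equal words
      have h1 : ∀ i, (x i - y i) ^ 2 ≤ (x i - y i + k i * L i) ^ 2 := by
        intro i
        rw [← sq_abs (x i - y i), ← sq_abs (x i - y i + k i * L i)]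
        apply pow_le_pow_left₀ (abs_nonneg _)
        apply coord_near (hL i)
        have hi := congrFun h i
        rcases word_eq hτ (hYG x hx) i with ⟨a1, a2⟩ | ⟨a1, a2⟩ <;>
          rcases word_eq hτ (hYG y hy) i with ⟨b1, b2⟩ | ⟨b1, b2⟩
        · have := a2.1; have := a2.2; have := b2.1; have := b2.2
          rw [abs_le]; constructor <;> linarith
        · rw [a1, b1] at hi; simp at hi
        · rw [a1, b1] at hi; simp at hi
        · have := a2.1; have := a2.2; have := b2.1; have := b2.2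
          rw [abs_le]; constructor <;> linarith
      have h2 : dist x y ^ 2 = ∑ i, (x i - y i) ^ 2 := by
        rw [EuclideanSpace.dist_eq, Real.sq_sqrt (Finset.sum_nonneg fun i _ => by positivity)]
        exact Finset.sum_congr rfl fun i _ => by rw [Real.dist_eq, sq_abs]
      have h3 : 2 ≤ dist x y := hP x (hYP hx) y (hYP hy) hxy
      calc (4 : ℝ) = 2 ^ 2 := by norm_num
        _ ≤ dist x y ^ 2 := pow_le_pow_left₀ (by norm_num) h3 2
        _ = ∑ i, (x i - y i) ^ 2 := h2
        _ ≤ _ := Finset.sum_le_sum fun i _ => h1 i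
    · -- distant words
      set D := Finset.univ.filter (fun i => word n L x i ≠ word n L y i) with hD
      have h1 : ∀ i ∈ D, 4 * τ ^ 2 ≤ (x i - y i + k i * L i) ^ 2 := by
        intro i hi
        have hne : word n L x i ≠ word n L y i := (Finset.mem_filter.1 hi).2
        have h5 : 2 * τ ≤ |x i - y i + k i * L i| := by
          rcases word_eq hτ (hYG x hx) i with ⟨a1, a2⟩ | ⟨a1, a2⟩ <;>
            rcases word_eq hτ (hYG y hy) i with ⟨b1, b2⟩ | ⟨b1, b2⟩
          · exact absurd (a1.trans b1.symm) hne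
          · exact coord_far (hL i) a2 b2 _
          · have := coord_far (hL i) b2 a2 (-(k i))
            have e : y i - x i + ((-(k i) : ℤ) : ℝ) * L i = -(x i - y i + k i * L i) := by
              push_cast; ring
            rw [e, abs_neg] at this
            exact this
          · exact absurd (a1.trans b1.symm) hne
        calc 4 * τ ^ 2 = (2 * τ) ^ 2 := by ring
          _ ≤ |x i - y i + k i * L i| ^ 2 := pow_le_pow_left₀ (by positivity) h5 2
          _ = _ := sq_abs _
      calc (4 : ℝ) ≤ 4 * ((d + 1) * τ ^ 2) := by linarith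
        _ ≤ D.card * (4 * τ ^ 2) := by
            have : ((d : ℝ) + 1) ≤ D.card := by exact_mod_cast h
            nlinarith [sq_nonneg τ]
        _ = ∑ i ∈ D, 4 * τ ^ 2 := by rw [Finset.sum_const, nsmul_eq_mul]
        _ ≤ ∑ i ∈ D, (x i - y i + k i * L i) ^ 2 := Finset.sum_le_sum h1
        _ ≤ ∑ i, (x i - y i + k i * L i) ^ 2 :=
            Finset.sum_le_sum_of_subset_of_nonneg (Finset.subset_univ _)
              fun i _ _ => sq_nonneg _
  · rw [← reg_vol n L τ hτ h4]
    refine hPc.trans ?_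
    apply mul_le_mul_of_nonneg_right _ vb_pos.le
    exact_mod_cast hYc

end Pool.Agent.U26.SP
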