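import Pool.Agent.U26.SP.Bounds

/-! Periodic packings with centres on a grid (helper26). -/

set_option autoImplicit false

open MeasureTheory Metric Filter Set Pool.Agent.H818R2
open scoped Topology

namespace Pool.Agent.U26.SP

/-- every point of `X` has its `i`-th coordinates in `h i ℤ` -/
def OnGrid {n : ℕ} (h : Fin n → ℝ) (X : Set (EuclideanSpace ℝ (Fin n))) : Prop :=
  ∀ x ∈ X, ∀ i, ∃ m : ℤ, x i = m * h i

/-- the largest density of the packings of unit balls whose set of centres is invariant under the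
translations by the vectors `L i • e_i` and is contained in the grid `∏ (L i / q i) ℤ` -/
noncomputable def gridDensity (n : ℕ) (L : Fin n → ℝ) (q : Fin n → ℕ) : ℝ :=
  sSup {δ | ∃ X : Set (EuclideanSpace ℝ (Fin n)), IsPacking X 1 ∧ Invariant L X ∧
    OnGrid (fun i => L i / q i) X ∧ upperDensity X 1 = δ}

theorem bdd_grid (n : ℕ) (L : Fin n → ℝ) (q : Fin n → ℕ) :
    BddAbove {δ | ∃ X : Set (EuclideanSpace ℝ (Fin n)), IsPacking X 1 ∧ Invariant L X ∧
      OnGrid (fun i => L i / q i) X ∧ upperDensity X 1 = δ} := by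
  refine ⟨1, ?_⟩
  rintro δ ⟨X, -, -, -, rfl⟩
  exact upperDensity_le_one X 1

theorem gridDensity_le (n : ℕ) (L : Fin n → ℝ) (q : Fin n → ℕ) : gridDensity n L q ≤ rho n := by
  apply csSup_le
  · exact ⟨_, ∅, isPacking_empty, fun i x => by simp, fun x hx => absurd hx (by simp), rfl⟩
  · rintro δ ⟨X, h1, -, -, rfl⟩
    exact le_optDensity h1

theorem le_gridDensity {n : ℕ} {L : Fin n → ℝ} {q : Fin n → ℕ} {X : Set (EuclideanSpace ℝ (Fin n))}
    (h1 : IsPacking X 1) (h2 : Invariant L X) (h3 : OnGrid (fun i => L i / q i) X) :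
    upperDensity X 1 ≤ gridDensity n L q :=
  le_csSup (bdd_grid n L q) ⟨X, h1, h2, h3, rfl⟩

theorem norm_le_of_coord {n : ℕ} {h : ℝ} {x : EuclideanSpace ℝ (Fin n)}
    (hx : ∀ i, |x i| ≤ h) : ‖x‖ ≤ √n * h := by
  rcases Nat.eq_zero_or_pos n with rfl | hn
  · rw [EuclideanSpace.norm_eq]; simp
  have h0 : 0 ≤ h := (abs_nonneg _).trans (hx ⟨0, hn⟩)
  have e : √n * h = √(n * h ^ 2) := by
    rw [Real.sqrt_mul (Nat.cast_nonneg n), Real.sqrt_sq h0]
  rw [EuclideanSpace.norm_eq, e]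
  apply Real.sqrt_le_sqrt
  calc ∑ i, ‖x i‖ ^ 2 ≤ ∑ _i : Fin n, h ^ 2 := by
        apply Finset.sum_le_sum
        intro i _
        rw [Real.norm_eq_abs]
        exact pow_le_pow_left₀ (abs_nonneg _) (hx i) 2
    _ = n * h ^ 2 := by rw [Finset.sum_const, Finset.card_univ, Fintype.card_fin, nsmul_eq_mul]

/-- the rounded point -/
noncomputable def rnd (n : ℕ) (L : Fin n → ℝ) (q : Fin n → ℕ) (s : ℝ)
    (x : EuclideanSpace ℝ (Fin n)) : EuclideanSpace ℝ (Fin n) :=
  WithLp.toLp 2 (fun i => ((round (s * x i / (L i / q i)) % (q i : ℤ) : ℤ) : ℝ) * (L i / q i))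

theorem rnd_apply (n : ℕ) (L : Fin n → ℝ) (q : Fin n → ℕ) (s : ℝ)
    (x : EuclideanSpace ℝ (Fin n)) (i : Fin n) : rnd n L q s x i =
    ((round (s * x i / (L i / q i)) % (q i : ℤ) : ℤ) : ℝ) * (L i / q i) := rfl

theorem rnd_mem {n : ℕ} {L : Fin n → ℝ} {q : Fin n → ℕ} (hL : ∀ i, 0 < L i) (hq : ∀ i, 0 < q i)
    (s : ℝ) (x : EuclideanSpace ℝ (Fin n)) (i : Fin n) :
    0 ≤ rnd n L q s x i ∧ rnd n L q s x i < L i := by
  rw [rnd_apply]
  have hq0 : (0 : ℝ) < q i := by exact_mod_cast hq i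
  have hq1 : (q i : ℤ) ≠ 0 := by exact_mod_cast (hq i).ne'
  have hg : 0 < L i / q i := div_pos (hL i) hq0
  set r := round (s * x i / (L i / q i)) % (q i : ℤ) with hr
  have h1 : 0 ≤ r := Int.emod_nonneg _ hq1
  have h2 : r < q i := Int.emod_lt_of_pos _ (by exact_mod_cast hq i)
  have h1' : (0 : ℝ) ≤ r := by exact_mod_cast h1
  have h2' : (r : ℝ) < q i := by exact_mod_cast h2
  refine ⟨by positivity, ?_⟩
  calc (r : ℝ) * (L i / q i) < q i * (L i / q i) := mul_lt_mul_of_pos_right h2' hg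
    _ = L i := by field_simp

theorem rnd_sep {n : ℕ} {L : Fin n → ℝ} {q : Fin n → ℕ} (hL : ∀ i, 0 < L i) (hq : ∀ i, 0 < q i)
    {h : ℝ} (hh : ∀ i, L i / q i ≤ h) {s : ℝ} (hs : s = 1 + √n * h / 2) (hs0 : 1 ≤ s)
    {x y : EuclideanSpace ℝ (Fin n)}
    (hxy : ∀ k : Fin n → ℤ, 4 ≤ ∑ i, (x i - y i + k i * (L i / s)) ^ 2) (k : Fin n → ℤ) :
    4 ≤ ∑ i, (rnd n L q s x i - rnd n L q s y i + k i * L i) ^ 2 := by
  have hs1 : 0 < s := by linarith
  set m : EuclideanSpace ℝ (Fin n) → Fin n → ℤ := fun z i => round (s * z i / (L i / q i)) with hm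
  set k' : Fin n → ℤ := fun i => k i - m x i / q i + m y i / q i with hk'
  have e1 : ∀ (z : EuclideanSpace ℝ (Fin n)) i, rnd n L q s z i =
      m z i * (L i / q i) - ((m z i / q i : ℤ) : ℝ) * L i := by
    intro z i
    have hq0 : (0 : ℝ) < q i := by exact_mod_cast hq i
    rw [rnd_apply, Int.emod_def]
    push_cast
    have : (q i : ℝ) * (L i / q i) = L i := by field_simp
    rw [sub_mul, mul_right_comm, this, mul_comm (L i)]
  let u : EuclideanSpace ℝ (Fin n) := WithLp.toLp 2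
    (fun i => (m x i * (L i / q i) - m y i * (L i / q i)) + k' i * L i)
  let v : EuclideanSpace ℝ (Fin n) := WithLp.toLp 2
    (fun i => s * (x i - y i + k' i * (L i / s)))
  have hu : ∀ i, u i = (m x i * (L i / q i) - m y i * (L i / q i)) + k' i * L i := fun _ => rfl
  have hv : ∀ i, v i = s * (x i - y i + k' i * (L i / s)) := fun _ => rfl
  have e2 : ∀ i, rnd n L q s x i - rnd n L q s y i + k i * L i = u i := by
    intro i
    rw [e1, e1, hu, hk']
    push_cast
    ring
  have hv2 : 2 * s ≤ ‖v‖ := by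
    have h1 : ‖v‖ ^ 2 = s ^ 2 * ∑ i, (x i - y i + k' i * (L i / s)) ^ 2 := by
      rw [EuclideanSpace.norm_eq, Real.sq_sqrt (Finset.sum_nonneg fun i _ => by positivity),
        Finset.mul_sum]
      refine Finset.sum_congr rfl fun i _ => ?_
      rw [hv, Real.norm_eq_abs, sq_abs, mul_pow]
    have h2 : (2 * s) ^ 2 ≤ ‖v‖ ^ 2 := by
      rw [h1]
      nlinarith [hxy k', sq_nonneg s]
    exact (pow_le_pow_iff_left₀ (by positivity) (norm_nonneg _) (by norm_num)).1 h2
  have huv : ‖u - v‖ ≤ √n * h := by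
    apply norm_le_of_coord
    intro i
    have hq0 : (0 : ℝ) < q i := by exact_mod_cast hq i
    have hg : 0 < L i / q i := div_pos (hL i) hq0
    have h3 : ∀ z : EuclideanSpace ℝ (Fin n), |s * z i - m z i * (L i / q i)| ≤
        (L i / q i) / 2 := by
      intro z
      have := abs_sub_round (s * z i / (L i / q i))
      have e : s * z i - m z i * (L i / q i) =
          (s * z i / (L i / q i) - (m z i : ℝ)) * (L i / q i) := by
        rw [sub_mul, div_mul_cancel₀ _ hg.ne']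
      rw [e, abs_mul, abs_of_pos hg]
      calc _ ≤ 1 / 2 * (L i / q i) := mul_le_mul_of_nonneg_right this hg.le
        _ = _ := by ring
    have e3 : (u - v) i = (s * y i - m y i * (L i / q i)) - (s * x i - m x i * (L i / q i)) := by
      rw [PiLp.sub_apply, hu, hv]
      field_simp
      ring
    rw [e3]
    calc _ ≤ |s * y i - m y i * (L i / q i)| + |s * x i - m x i * (L i / q i)| := abs_sub _ _
      _ ≤ (L i / q i) / 2 + (L i / q i) / 2 := add_le_add (h3 y) (h3 x)
      _ ≤ h := by linarith [hh i]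
  have hu2 : 2 ≤ ‖u‖ := by
    have h1 : ‖v‖ ≤ ‖u‖ + ‖u - v‖ := by
      calc ‖v‖ = ‖u - (u - v)‖ := by congr 1; abel
        _ ≤ _ := norm_sub_le _ _
    rw [hs] at hv2
    linarith
  simp only [e2]
  have h1 : ‖u‖ ^ 2 = ∑ i, u i ^ 2 := by
    rw [EuclideanSpace.norm_eq, Real.sq_sqrt (Finset.sum_nonneg fun i _ => by positivity)]
    exact Finset.sum_congr rfl fun i _ => by rw [Real.norm_eq_abs, sq_abs]
  rw [← h1]
  nlinarith

/-- **The finite inequality for grids.** -/
theorem grid_ineq (n : ℕ) (L : Fin n → ℝ) (q : Fin n → ℕ) (hL : ∀ i, 2 ≤ L i)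
    (hq : ∀ i, 0 < q i) (h : ℝ) (hh : ∀ i, L i / q i ≤ h) (s : ℝ) (hs : s = 1 + √n * h / 2)
    (hs0 : 1 ≤ s) (τ : ℝ) (hτ : 0 < τ) (hτ2 : 2 * τ < 1 / s) (d : ℕ)
    (hd : 1 ≤ (d + 1) * τ ^ 2) :
    rho n * (1 / s - 2 * τ) ^ n ≤ (n + 1) ^ d * gridDensity n L q := by
  classical
  have hs1 : 0 < s := by linarith
  have hL0 : ∀ i, 0 < L i := fun i => by linarith [hL i]
  have hLs : ∀ i, 2 * (1 / s) ≤ L i / s := fun i => by
    rw [mul_one_div]; exact div_le_div_of_nonneg_right (hL i) hs1.le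
  obtain ⟨Y, hb, hY, hc⟩ := exists_torus n (fun i => L i / s) (fun i => div_pos (hL0 i) hs1) τ hτ
    (fun i => by linarith [hLs i]) d hd
  set Z := Y.image (rnd n L q s) with hZ
  have hsep : ∀ x ∈ Y, ∀ y ∈ Y, x ≠ y → ∀ k : Fin n → ℤ,
      4 ≤ ∑ i, (rnd n L q s x i - rnd n L q s y i + k i * L i) ^ 2 :=
    fun x hx y hy hxy k => rnd_sep hL0 hq hh hs hs0 (hY x hx y hy hxy) k
  have hinj : Set.InjOn (rnd n L q s) Y := by
    intro x hx y hy he
    by_contra hne
    have := hsep x hx y hy hne 0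
    rw [he] at this
    norm_num at this
  have hcard : Z.card = Y.card := Finset.card_image_of_injOn hinj
  have hbZ : ∀ x ∈ Z, ∀ i, 0 ≤ x i ∧ x i < L i := by
    intro x hx i
    obtain ⟨y, -, rfl⟩ := Finset.mem_image.1 hx
    exact rnd_mem hL0 hq s y i
  have hYZ : ∀ x ∈ Z, ∀ y ∈ Z, x ≠ y → ∀ k : Fin n → ℤ, 4 ≤ ∑ i, (x i - y i + k i * L i) ^ 2 := by
    intro x hx y hy hxy k
    obtain ⟨x', hx', rfl⟩ := Finset.mem_image.1 hx
    obtain ⟨y', hy', rfl⟩ := Finset.mem_image.1 hy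
    exact hsep x' hx' y' hy' (fun e => hxy (by rw [e])) k
  have hprod : 0 < ∏ i, L i := Finset.prod_pos fun i _ => hL0 i
  have hgrid : OnGrid (fun i => L i / q i) (per n L Z) := by
    rintro z ⟨y, hy, k, rfl⟩ i
    obtain ⟨y', hy', rfl⟩ := Finset.mem_image.1 hy
    refine ⟨round (s * y' i / (L i / q i)) % (q i : ℤ) + k i * q i, ?_⟩
    have hq0 : (0 : ℝ) < q i := by exact_mod_cast hq i
    rw [PiLp.add_apply, shift_apply, rnd_apply]
    push_cast
    field_simp
  have h1 := density_per hL hbZ hYZ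
  have h2 := h1.trans (le_gridDensity (per_packing hL hYZ) (per_invariant n L Z) hgrid)
  rw [hcard, div_le_iff₀ hprod] at h2
  have h3 : (1 / s - 2 * τ) ^ n * ∏ i, L i ≤ ∏ i, (L i / s - 4 * τ) := by
    have : (1 / s - 2 * τ) ^ n * ∏ i, L i = ∏ i : Fin n, (1 / s - 2 * τ) * L i := by
      rw [Finset.prod_mul_distrib, Finset.prod_const, Finset.card_univ, Fintype.card_fin]
    rw [this]
    apply Finset.prod_le_prod
    · intro i _
      exact mul_nonneg (by linarith) (hL0 i).le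
    · intro i _
      have : L i / s = 1 / s * L i := by ring
      rw [this]
      nlinarith [hL i]
  have h4 : rho n * ((1 / s - 2 * τ) ^ n * ∏ i, L i) ≤
      (n + 1) ^ d * Y.card * vb (EuclideanSpace ℝ (Fin n)) :=
    (mul_le_mul_of_nonneg_left h3 (rho_nonneg n)).trans hc
  have h5 : rho n * (1 / s - 2 * τ) ^ n * ∏ i, L i ≤
      (n + 1) ^ d * gridDensity n L q * ∏ i, L i := by
    calc rho n * (1 / s - 2 * τ) ^ n * ∏ i, L i
        = rho n * ((1 / s - 2 * τ) ^ n * ∏ i, L i) := by ring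
      _ ≤ (n + 1) ^ d * (Y.card * vb (EuclideanSpace ℝ (Fin n))) := le_of_le_of_eq h4 (by ring)
      _ ≤ (n + 1) ^ d * (gridDensity n L q * ∏ i, L i) :=
          mul_le_mul_of_nonneg_left h2 (by positivity)
      _ = _ := by ring
  exact le_of_mul_le_mul_right h5 hprod

/-- **Grids, explicit form.** -/
theorem grid_explicit (n : ℕ) (hn : 0 < n) (L : Fin n → ℝ) (q : Fin n → ℕ) (hL : ∀ i, 2 ≤ L i)
    (hq : ∀ i, 0 < q i) (h : ℝ) (hh : ∀ i, L i / q i ≤ h) (hh2 : √n * h ≤ 2) :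
    rho n * Real.exp (-(72 * err n + n * (√n * h / 2))) ≤ gridDensity n L q := by
  have ht := tt_pos hn
  have ht1 := tt_le_one hn
  have hn0 : (0 : ℝ) < n := by exact_mod_cast hn
  have he : 0 < err n := by rw [err_eq hn]; positivity
  have hh0 : 0 < h := by
    refine lt_of_lt_of_le ?_ (hh ⟨0, hn⟩)
    have : (0 : ℝ) < q ⟨0, hn⟩ := by exact_mod_cast hq ⟨0, hn⟩
    have := hL ⟨0, hn⟩
    positivity
  set c := √n * h / 2 with hc
  have hc0 : 0 ≤ c := by positivity
  set s := 1 + c with hs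
  have hs1 : 1 ≤ s := by linarith
  have hs2 : s ≤ 2 := by linarith
  have hs0 : 0 < s := by linarith
  -- it is enough to find `τ`
  have main : ∀ τ : ℝ, 0 < τ → τ ≤ 1 / 8 →
      8 * τ * n + 1 / τ ^ 2 * Real.log (n + 1) ≤ 72 * err n →
      rho n * Real.exp (-(72 * err n + n * c)) ≤ gridDensity n L q := by
    intro τ h1 h2 h3
    obtain ⟨d, hd1, hd2⟩ := exists_d h1
    have hτs : 2 * τ < 1 / s := by
      rw [lt_div_iff₀ hs0]; nlinarith
    have h4 := grid_ineq n L q hL hq h hh s (by rw [hs, hc]) hs1 τ h1 hτs d hd1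
    have h5 : Real.exp (-(8 * τ * n + n * c)) ≤ (1 / s - 2 * τ) ^ n := by
      have h51 := one_sub_ge (x := 4 * τ) (by linarith) (by linarith)
      have h52 : Real.exp (-c) ≤ 1 / s := by
        rw [Real.exp_neg, ← one_div]
        apply one_div_le_one_div_of_le hs0
        have := Real.add_one_le_exp c
        linarith
      have h53 : Real.exp (-(8 * τ + c)) ≤ 1 / s - 2 * τ := by
        calc Real.exp (-(8 * τ + c)) = Real.exp (-(2 * (4 * τ))) * Real.exp (-c) := by
              rw [← Real.exp_add]; congr 1; ring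
          _ ≤ (1 - 4 * τ) * (1 / s) := by
              apply mul_le_mul h51 h52 (Real.exp_pos _).le; linarith
          _ ≤ 1 / s - 2 * τ := by
              have : 1 / 2 ≤ 1 / s := one_div_le_one_div_of_le hs0 hs2
              nlinarith
      calc Real.exp (-(8 * τ * n + n * c)) = Real.exp (-(8 * τ + c)) ^ n := by
            rw [← Real.exp_nat_mul]; congr 1; ring
        _ ≤ _ := pow_le_pow_left₀ (Real.exp_pos _).le h53 n
    have h6 : ((n : ℝ) + 1) ^ d ≤ Real.exp (1 / τ ^ 2 * Real.log (n + 1)) := by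
      rw [pow_eq_exp]
      exact Real.exp_le_exp.2 (mul_le_mul_of_nonneg_right hd2 (log_pos' hn).le)
    have hbox : 0 ≤ gridDensity n L q := by
      have := (mul_nonneg (rho_nonneg n)
        (pow_nonneg (by linarith : (0:ℝ) ≤ 1 / s - 2 * τ) n)).trans h4
      exact nonneg_of_mul_nonneg_right this (by positivity)
    have h7 : rho n * Real.exp (-(8 * τ * n + n * c)) ≤
        Real.exp (1 / τ ^ 2 * Real.log (n + 1)) * gridDensity n L q :=
      (mul_le_mul_of_nonneg_left h5 (rho_nonneg n)).trans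
        (h4.trans (mul_le_mul_of_nonneg_right h6 hbox))
    have h8 : rho n * Real.exp (-(8 * τ * n + n * c)) *
        Real.exp (-(1 / τ ^ 2 * Real.log (n + 1))) ≤ gridDensity n L q := by
      calc _ ≤ Real.exp (1 / τ ^ 2 * Real.log (n + 1)) * gridDensity n L q *
            Real.exp (-(1 / τ ^ 2 * Real.log (n + 1))) :=
            mul_le_mul_of_nonneg_right h7 (Real.exp_pos _).le
        _ = gridDensity n L q * (Real.exp (1 / τ ^ 2 * Real.log (n + 1)) *
            Real.exp (-(1 / τ ^ 2 * Real.log (n + 1)))) := by ring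
        _ = gridDensity n L q := by rw [← Real.exp_add, add_neg_cancel, Real.exp_zero, mul_one]
    refine le_trans ?_ h8
    rw [mul_assoc, ← Real.exp_add]
    apply mul_le_mul_of_nonneg_left _ (rho_nonneg n)
    apply Real.exp_le_exp.2
    linarith
  rcases le_or_gt (tt n) (1 / 8) with h | h
  · apply main (tt n) ht h
    have h1 : 8 * tt n * n = 8 * err n := by rw [err_eq hn]; ring
    have h2 : 1 / tt n ^ 2 * Real.log (n + 1) = err n := by
      rw [log_eq hn]; field_simp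
    rw [h1, h2]; linarith
  · apply main (1 / 8) (by norm_num) le_rfl
    have h1 : (n : ℝ) ≤ 8 * err n := by
      rw [err_eq hn]; nlinarith
    have h2 : Real.log (n + 1) ≤ err n := by
      rw [log_eq hn]
      have : tt n ^ 2 ≤ 1 := by nlinarith
      nlinarith
    linarith

end Pool.Agent.U26.SP
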