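import Pool.Agent.U26.SP.Box

/-! The density of periodic packings (helper26). -/

set_option autoImplicit false

open MeasureTheory Metric Filter Set Pool.Agent.H818R2
open scoped Topology

namespace Pool.Agent.U26.SP

/-- the vector with the coordinates `k i * L i` -/
noncomputable def shift (n : ℕ) (L : Fin n → ℝ) (k : Fin n → ℤ) : EuclideanSpace ℝ (Fin n) :=
  WithLp.toLp 2 (fun i => (k i : ℝ) * L i)

@[simp] theorem shift_apply (n : ℕ) (L : Fin n → ℝ) (k : Fin n → ℤ) (i : Fin n) :
    shift n L k i = k i * L i := rfl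

/-- the periodic set with the representatives `Y` -/
def per (n : ℕ) (L : Fin n → ℝ) (Y : Finset (EuclideanSpace ℝ (Fin n))) :
    Set (EuclideanSpace ℝ (Fin n)) :=
  {z | ∃ y ∈ Y, ∃ k : Fin n → ℤ, z = y + shift n L k}

theorem dist_sq {n : ℕ} (x y : EuclideanSpace ℝ (Fin n)) : dist x y ^ 2 = ∑ i, (x i - y i) ^ 2 := by
  rw [EuclideanSpace.dist_eq, Real.sq_sqrt (Finset.sum_nonneg fun i _ => by positivity)]
  exact Finset.sum_congr rfl fun i _ => by rw [Real.dist_eq, sq_abs]

theorem two_le_of {n : ℕ} {x y : EuclideanSpace ℝ (Fin n)} (h : 4 ≤ ∑ i, (x i - y i) ^ 2) :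
    2 ≤ dist x y := by
  rw [← dist_sq] at h
  have : (2 : ℝ) ^ 2 ≤ dist x y ^ 2 := by linarith
  exact (pow_le_pow_iff_left₀ (by norm_num) dist_nonneg (by norm_num)).1 this

theorem per_sep {n : ℕ} {L : Fin n → ℝ} (hL : ∀ i, 2 ≤ L i)
    {Y : Finset (EuclideanSpace ℝ (Fin n))}
    (hY : ∀ x ∈ Y, ∀ y ∈ Y, x ≠ y → ∀ k : Fin n → ℤ, 4 ≤ ∑ i, (x i - y i + k i * L i) ^ 2)
    {z w : EuclideanSpace ℝ (Fin n)} (hz : z ∈ per n L Y) (hw : w ∈ per n L Y) (hzw : z ≠ w) :
    2 ≤ dist z w := by
  obtain ⟨x, hx, k, rfl⟩ := hz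
  obtain ⟨y, hy, l, rfl⟩ := hw
  apply two_le_of
  have e : ∀ i, (x + shift n L k) i - (y + shift n L l) i =
      x i - y i + ((fun i => k i - l i) i : ℤ) * L i := by
    intro i
    simp only [PiLp.add_apply, shift_apply]
    push_cast
    ring
  simp only [e]
  by_cases hxy : x = y
  · subst hxy
    have hkl : k ≠ l := fun h => hzw (by rw [h])
    obtain ⟨j, hj⟩ := Function.ne_iff.1 hkl
    have h1 : (4 : ℝ) ≤ (x j - x j + ((k j - l j : ℤ) : ℝ) * L j) ^ 2 := by
      rw [sub_self, zero_add]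
      have h2 : (1 : ℝ) ≤ ((k j - l j : ℤ) : ℝ) ^ 2 := by
        have : (1 : ℤ) ≤ (k j - l j) ^ 2 := by
          have h3 : k j - l j ≠ 0 := sub_ne_zero.2 hj
          have := Int.one_le_abs h3
          nlinarith [sq_abs (k j - l j), abs_nonneg (k j - l j)]
        exact_mod_cast this
      have h3 : (4 : ℝ) ≤ L j ^ 2 := by nlinarith [hL j]
      rw [mul_pow]
      nlinarith [sq_nonneg ((k j - l j : ℤ) : ℝ), sq_nonneg (L j)]
    exact h1.trans (Finset.single_le_sum (f := fun i => (x i - x i + ((k i - l i : ℤ) : ℝ) * L i) ^ 2)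
      (fun i _ => sq_nonneg _) (Finset.mem_univ j))
  · exact hY x hx y hy hxy _

theorem per_packing {n : ℕ} {L : Fin n → ℝ} (hL : ∀ i, 2 ≤ L i)
    {Y : Finset (EuclideanSpace ℝ (Fin n))}
    (hY : ∀ x ∈ Y, ∀ y ∈ Y, x ≠ y → ∀ k : Fin n → ℤ, 4 ≤ ∑ i, (x i - y i + k i * L i) ^ 2) :
    IsPacking (per n L Y) 1 :=
  ⟨one_pos, fun _ hz _ hw hzw => disj_of_sep (per_sep hL hY hz hw hzw)⟩

/-- the box -/
def box (n : ℕ) (L : Fin n → ℝ) : Set (EuclideanSpace ℝ (Fin n)) := {x | ∀ i, x i ∈ Ico 0 (L i)}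

theorem box_vol (n : ℕ) (L : Fin n → ℝ) (hL : ∀ i, 0 < L i) :
    volume.real (box n L) = ∏ i, L i := by
  have h0 : box n L = (WithLp.ofLp : EuclideanSpace ℝ (Fin n) → (Fin n → ℝ)) ⁻¹'
      (Set.pi univ fun i => Ico 0 (L i)) := by
    ext x
    simp [box, Set.mem_pi]
  rw [measureReal_def, h0, (PiLp.volume_preserving_ofLp (Fin n)).measure_preimage
    (MeasurableSet.univ_pi fun _ => measurableSet_Ico).nullMeasurableSet, volume_pi_pi]
  simp only [Real.volume_Ico, sub_zero]
  rw [ENNReal.toReal_prod]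
  exact Finset.prod_congr rfl fun i _ => ENNReal.toReal_ofReal (hL i).le

theorem finite_shifts (n : ℕ) (L : Fin n → ℝ) (hL : ∀ i, 0 < L i) (R : ℝ) :
    {k : Fin n → ℤ | ‖shift n L k‖ ≤ R}.Finite := by
  have h1 : {k : Fin n → ℤ | ‖shift n L k‖ ≤ R} ⊆
      Set.pi univ fun i => Icc (-⌈R / L i⌉) ⌈R / L i⌉ := by
    intro k hk i _
    have h2 : |(k i : ℝ) * L i| ≤ R := by
      have := (PiLp.norm_apply_le (shift n L k) i).trans hk
      rwa [shift_apply, Real.norm_eq_abs] at this
    rw [abs_mul, abs_of_pos (hL i), ← le_div_iff₀ (hL i)] at h2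
    have h3 : |(k i : ℝ)| ≤ (⌈R / L i⌉ : ℝ) := h2.trans (Int.le_ceil _)
    have h4 : |k i| ≤ ⌈R / L i⌉ := by exact_mod_cast h3
    exact abs_le.1 h4
  exact (Set.Finite.pi' fun i => finite_Icc _ _).subset (by
    intro k hk i; exact h1 hk i (mem_univ i))

theorem count_shifts (n : ℕ) (L : Fin n → ℝ) (hL : ∀ i, 0 < L i) (R : ℝ) (hR : 0 < R) :
    R ^ n * vb (EuclideanSpace ℝ (Fin n)) ≤
      ((finite_shifts n L hL (R + √(∑ i, L i ^ 2))).toFinset.card : ℝ) * ∏ i, L i := by
  set D := √(∑ i, L i ^ 2) with hD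
  set S := (finite_shifts n L hL (R + D)).toFinset with hS
  have hfr : Module.finrank ℝ (EuclideanSpace ℝ (Fin n)) = n := finrank_euclideanSpace_fin
  have h1 : ball (0 : EuclideanSpace ℝ (Fin n)) R ⊆
      ⋃ k ∈ S, (fun x => shift n L k + x) '' box n L := by
    intro x hx
    rw [mem_ball_zero_iff] at hx
    let k : Fin n → ℤ := fun i => ⌊x i / L i⌋
    have hb : ∀ i, (x - shift n L k) i ∈ Ico 0 (L i) := by
      intro i
      have h2 := Int.floor_le (x i / L i)
      have h3 := Int.lt_floor_add_one (x i / L i)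
      rw [le_div_iff₀ (hL i)] at h2
      rw [div_lt_iff₀ (hL i)] at h3
      simp only [PiLp.sub_apply, shift_apply]
      exact ⟨by linarith, by change x i - (⌊x i / L i⌋ : ℝ) * L i < L i; linarith⟩
    have hn : ‖x - shift n L k‖ ≤ D := norm_le_of_box fun i => ⟨(hb i).1, (hb i).2.le⟩
    simp only [mem_iUnion, exists_prop]
    refine ⟨k, ?_, x - shift n L k, hb, by simp⟩
    rw [hS, Finite.mem_toFinset, mem_ofPred_eq]
    calc ‖shift n L k‖ = ‖x - (x - shift n L k)‖ := by congr 1; abel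
      _ ≤ ‖x‖ + ‖x - shift n L k‖ := norm_sub_le _ _
      _ ≤ R + D := by linarith
  have hbv : ∀ k : Fin n → ℤ, volume.real ((fun x => shift n L k + x) '' box n L) = ∏ i, L i := by
    intro k
    rw [measureReal_def, Set.image_add_left, measure_preimage_add, ← measureReal_def,
      box_vol n L hL]
  have h2 : volume.real (ball (0 : EuclideanSpace ℝ (Fin n)) R) ≤
      volume.real (⋃ k ∈ S, (fun x => shift n L k + x) '' box n L) := by
    refine measureReal_mono h1 (measure_biUnion_lt_top (Finset.finite_toSet _) ?_).ne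
    intro k _
    have h3 : volume.real ((fun x => shift n L k + x) '' box n L) ≠ 0 := by
      rw [hbv k]; exact (Finset.prod_pos fun i _ => hL i).ne'
    rw [measureReal_def] at h3
    exact lt_top_iff_ne_top.2 fun h => h3 (by rw [h]; rfl)
  rw [vol_ball 0 hR, hfr] at h2
  refine h2.trans ((measureReal_biUnion_finset_le _ _).trans ?_)
  rw [Finset.sum_congr rfl fun k _ => hbv k, Finset.sum_const, nsmul_eq_mul]

/-- **The density of periodic packings.** -/
theorem density_per {n : ℕ} {L : Fin n → ℝ} (hL : ∀ i, 2 ≤ L i)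
    {Y : Finset (EuclideanSpace ℝ (Fin n))} (hb : ∀ x ∈ Y, ∀ i, 0 ≤ x i ∧ x i < L i)
    (hY : ∀ x ∈ Y, ∀ y ∈ Y, x ≠ y → ∀ k : Fin n → ℤ, 4 ≤ ∑ i, (x i - y i + k i * L i) ^ 2) :
    Y.card * vb (EuclideanSpace ℝ (Fin n)) / ∏ i, L i ≤ upperDensity (per n L Y) 1 := by
  classical
  have hL0 : ∀ i, 0 < L i := fun i => by linarith [hL i]
  have hfr : Module.finrank ℝ (EuclideanSpace ℝ (Fin n)) = n := finrank_euclideanSpace_fin
  set D := √(∑ i, L i ^ 2) with hD
  have hD0 : 0 ≤ D := Real.sqrt_nonneg _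
  have hprod : 0 < ∏ i, L i := Finset.prod_pos fun i _ => hL0 i
  have hX := per_packing hL hY
  set v := vb (EuclideanSpace ℝ (Fin n)) with hv
  have hv0 : 0 < v := vb_pos
  -- the inequality for one radius
  have key : ∀ R : ℝ, 2 * D + 1 < R → Y.card * v / (∏ i, L i) * ((R - 2 * D - 1) / R) ^ n ≤
      volume.real (ball (0 : EuclideanSpace ℝ (Fin n)) R ∩ body (per n L Y) 1) /
        volume.real (ball (0 : EuclideanSpace ℝ (Fin n)) R) := by
    intro R hR
    have hR0 : 0 < R := by linarith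
    set S := (finite_shifts n L hL0 ((R - 2 * D - 1) + D)).toFinset with hS
    set F := (Y ×ˢ S).image (fun p => p.1 + shift n L p.2) with hF
    have hcard : F.card = Y.card * S.card := by
      rw [hF, Finset.card_image_of_injOn, Finset.card_product]
      rintro ⟨x, k⟩ hxk ⟨y, l⟩ hyl h
      simp only [Finset.coe_product, Set.mem_prod, Finset.mem_coe] at hxk hyl
      have hc : ∀ i, x i + k i * L i = y i + l i * L i := by
        intro i
        have := congrArg (fun z : EuclideanSpace ℝ (Fin n) => z i) h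
        simpa using this
      have hkl : k = l := by
        funext i
        have h1 := hb x hxk.1 i
        have h2 := hb y hyl.1 i
        have h3 : ((k i : ℝ) - l i) * L i = y i - x i := by linarith [hc i]
        by_contra hne
        have h4 : (1 : ℤ) ≤ |k i - l i| := Int.one_le_abs (sub_ne_zero.2 hne)
        have h5 : (1 : ℝ) ≤ |(k i : ℝ) - l i| := by exact_mod_cast h4
        have h6 : L i ≤ |((k i : ℝ) - l i) * L i| := by
          rw [abs_mul, abs_of_pos (hL0 i)]
          nlinarith [hL0 i]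
        rw [h3] at h6
        have h7 : |y i - x i| < L i := by rw [abs_lt]; constructor <;> linarith
        linarith
      subst hkl
      have hxy : x = y := by
        ext i
        linarith [hc i]
      rw [hxy]
    have h1 := le_body hX (T := R - 1) (F := F) (by
        intro z hz
        simp only [hF, Finset.coe_image, mem_image] at hz
        obtain ⟨⟨x, k⟩, hxk, rfl⟩ := hz
        simp only [Finset.coe_product, Set.mem_prod, Finset.mem_coe] at hxk
        exact ⟨x, hxk.1, k, rfl⟩) (by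
        intro z hz
        simp only [hF, Finset.mem_image] at hz
        obtain ⟨⟨x, k⟩, hxk, rfl⟩ := hz
        simp only [Finset.mem_product] at hxk
        have h2 : ‖x‖ ≤ D := norm_le_of_box fun i => ⟨(hb x hxk.1 i).1, (hb x hxk.1 i).2.le⟩
        have h3 : ‖shift n L k‖ ≤ (R - 2 * D - 1) + D := by
          have := hxk.2
          rw [hS, Finite.mem_toFinset] at this
          exact this
        calc ‖x + shift n L k‖ ≤ ‖x‖ + ‖shift n L k‖ := norm_add_le _ _
          _ ≤ R - 1 := by linarith)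
    rw [sub_add_cancel] at h1
    have h2 := count_shifts n L hL0 (R - 2 * D - 1) (by linarith)
    rw [← hD, ← hS] at h2
    rw [vol_ball 0 hR0, hfr, ← hv]
    have h3 : (R - 2 * D - 1) ^ n * v / ∏ i, L i ≤ S.card := by
      rw [div_le_iff₀ hprod]; exact h2
    calc Y.card * v / (∏ i, L i) * ((R - 2 * D - 1) / R) ^ n
        = Y.card * ((R - 2 * D - 1) ^ n * v / ∏ i, L i) * v / (R ^ n * v) := by
          rw [div_pow]; field_simp
      _ ≤ Y.card * S.card * v / (R ^ n * v) := by
          apply div_le_div_of_nonneg_right _ (by positivity)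
          apply mul_le_mul_of_nonneg_right _ hv0.le
          exact mul_le_mul_of_nonneg_left h3 (Nat.cast_nonneg _)
      _ = F.card * v / (R ^ n * v) := by rw [hcard]; push_cast; ring
      _ ≤ _ := div_le_div_of_nonneg_right h1 (by positivity)
  have h5 : Tendsto (fun R : ℝ => Y.card * v / (∏ i, L i) * ((R - 2 * D - 1) / R) ^ n) atTop
      (𝓝 (Y.card * v / (∏ i, L i) * 1 ^ n)) := by
    apply Tendsto.const_mul
    apply Tendsto.pow
    have : Tendsto (fun R : ℝ => 1 - (2 * D + 1) / R) atTop (𝓝 (1 - 0)) :=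
      tendsto_const_nhds.sub (tendsto_const_nhds.div_atTop tendsto_id)
    rw [sub_zero] at this
    refine this.congr' ?_
    filter_upwards [eventually_gt_atTop 0] with R hR
    field_simp
    ring
  rw [one_pow, mul_one] at h5
  calc Y.card * v / (∏ i, L i)
      = limsup (fun R : ℝ => Y.card * v / (∏ i, L i) * ((R - 2 * D - 1) / R) ^ n) atTop :=
        h5.limsup_eq.symm
    _ ≤ upperDensity (per n L Y) 1 := by
        apply limsup_le_limsup
        · filter_upwards [eventually_gt_atTop (2 * D + 1)] with R hR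
          exact key R hR
        · exact h5.isBoundedUnder_ge.isCoboundedUnder_le
        · exact ratio_bdd _ 1

end Pool.Agent.U26.SP
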